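import Mathlib
import Pool.Agent.Helper26.PST.Bound

namespace Pool.Agent.Results.MP_eefe30_lc.CocycleBound

/-- Let `τ` be a Polish semigroup topology on the closure of `G`, different from the topology of
pointwise convergence, finer than it and with the same neighbourhoods of the identity. Then the
number of Polish semigroup topologies is at least one plus the number of the sets
`{f | δ p f < v for some p with δ p not identically zero}`, where `δ` runs over the `τ`-lower
semicontinuous cocycles with values in `[0,∞]` on countable sorts and `v` over `[0,∞]`. -/
theorem result {Ω : Type*} [Countable Ω] (G : Subgroup (Equiv.Perm Ω))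
    (τ : TopologicalSpace (PST.Closure G)) (hτ : τ ∈ PST.PolishSemigroupTopologies G)
    (hle : τ ≤ PST.t0 G) (hne : τ ≠ PST.t0 G)
    (hone : @nhds _ τ 1 = @nhds _ (PST.t0 G) 1) :
    1 + (PST.ZSets G τ).encard ≤ (PST.PolishSemigroupTopologies G).encard :=
  PST.one_add_encard_le hτ hle hne hone.ge (PST.t0_mem G)

end Pool.Agent.Results.MP_eefe30_lc.CocycleBound
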