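import Mathlib
import Pool.Agent.Helper26.PST.Stable

namespace Pool.Agent.Results.MP_eefe30_lc.CountablyManyTypes

/-- Let `G` be an oligomorphic permutation group on a countable set, and let `X` be an infinite
set invariant under the pointwise stabiliser of a finite set `D₀`. If for every `n` there are
only countably many complete types in `n` variables over `D₀ ∪ X` (for `X = Ω` this says that
the structure is omega-stable), then the closure of `G` carries infinitely many Polish semigroup
topologies. -/
theorem result {Ω : Type*} [Countable Ω] (G : Subgroup (Equiv.Perm Ω))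
    (hG : PST.Oligomorphic G) (D₀ : Finset Ω) (X : Set Ω) (hX : X.Infinite)
    (hinv : ∀ x ∈ X, ∀ g ∈ G, (∀ z ∈ D₀, g z = z) → g x ∈ X)
    (hst : ∀ n : ℕ, Countable (PST.TypeOver G ((D₀ : Set Ω) ∪ X) n)) :
    (PST.PolishSemigroupTopologies G).Infinite :=
  PST.infinite_of_countable_types hG hX hinv hst

end Pool.Agent.Results.MP_eefe30_lc.CountablyManyTypes
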