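import Mathlib
import Pool.Agent.Helper26.PST.LocalSet

namespace Pool.Agent.Results.MP_eefe30_lc.LocalPregeometry

/-- Let `G` be an oligomorphic permutation group on a countable set, `D₀` a finite set and `X` a
set of points which is invariant under the pointwise stabiliser of `D₀` and has a point not
algebraic over `D₀`. Assume that the algebraic closure has exchange on `X` over the sets `D₀ ∪ D`
with `D` a finite subset of `X`, that for every finite set `C` there is a finite subset `E` of `X`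
such that, for all `y` in `X`, the points of `X` algebraic over `D₀ ∪ C ∪ {y}` are algebraic over
`D₀ ∪ E ∪ {y}`, and that the pair `(D₀, X)` is not below any finite set of translates strictly
below it. Then the closure of `G` carries infinitely many Polish semigroup topologies. -/
theorem result {Ω : Type*} [Countable Ω] [DecidableEq Ω] (G : Subgroup (Equiv.Perm Ω))
    (hG : PST.Oligomorphic G) (D₀ : Finset Ω) (X : Set Ω)
    (hX : ∀ x ∈ X, ∀ g ∈ G, (∀ z ∈ D₀, g z = z) → g x ∈ X)
    (a : Ω) (ha : a ∈ X) (ha' : ¬ PST.IsAlgebraicOver G D₀ a)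
    (hex : ∀ (D : Finset Ω) (x y : Ω), (∀ z ∈ D, z ∈ X) → x ∈ X → y ∈ X →
      ¬ PST.IsAlgebraicOver G (D₀ ∪ D) x → PST.IsAlgebraicOver G (insert y (D₀ ∪ D)) x →
      PST.IsAlgebraicOver G (insert x (D₀ ∪ D)) y)
    (hem : ∀ C : Finset Ω, ∃ E : Finset Ω, (∀ z ∈ E, z ∈ X) ∧ ∀ x ∈ X, ∀ y ∈ X,
      PST.IsAlgebraicOver G (insert y (D₀ ∪ C)) x → PST.IsAlgebraicOver G (insert y (D₀ ∪ E)) x)
    (hnc : ∀ Q : Finset (Equiv.Perm Ω),
      (∀ q ∈ Q, q ∈ G ∧ PST.Below G D₀ X {1} q ∧ ¬ PST.Below G D₀ X {q} 1) →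
      ¬ PST.Below G D₀ X Q 1) :
    (PST.PolishSemigroupTopologies G).Infinite :=
  PST.infinite_of_localGeometric hG hX ha ha' hex hem hnc

end Pool.Agent.Results.MP_eefe30_lc.LocalPregeometry
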