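import Mathlib
import Pool.Agent.Helper26.PST.SymRank

namespace Pool.Agent.Results.MP_eefe30_lc.SupersimpleRank

/-- Let `G` be an oligomorphic permutation group on a countably infinite set without the strict
order property, with a symmetric ordinal-valued rank of finite sets over finite sets. Then the
closure of `G` carries infinitely many Polish semigroup topologies. -/
theorem result {Ω : Type*} [Countable Ω] [Infinite Ω] [DecidableEq Ω]
    (G : Subgroup (Equiv.Perm Ω)) (hG : PST.Oligomorphic G) (hN : PST.NoStrictOrder G)
    (r : Finset Ω → Finset Ω → Ordinal.{0}) (hr : PST.IsSymRank G r) :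
    (PST.PolishSemigroupTopologies G).Infinite :=
  PST.infinite_of_symRank hG hN hr

end Pool.Agent.Results.MP_eefe30_lc.SupersimpleRank
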